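import Pool.Agent.H55.BQ.Targets

/-!
# MP_bacf0e_co, second part: rows ILV, CPT, TTC, LB
-/

set_option autoImplicit false

open Finset Pool.Agent.H55.BP Pool.Agent.H55.BQ

namespace Pool.Agent.H48.BQ

theorem th_lt (a c : ℝ) (ha : a ≠ 0) (hc : c ≠ 0) :
    decide (th c < th a) = xor (decide (c < a)) (xor (decide (0 < a)) (decide (0 < c))) := by
  rcases lt_or_gt_of_ne ha with h1 | h1 <;> rcases lt_or_gt_of_ne hc with h2 | h2
  · have e : th c < th a ↔ c < a := by
      unfold th
      rw [if_neg (by linarith), if_neg (by linarith)]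
      constructor
      · intro h
        have h3 : c / (1 - c) < a / (1 - a) := by linarith
        rw [div_lt_div_iff₀ (by linarith) (by linarith)] at h3
        nlinarith
      · intro h
        have h3 : c / (1 - c) < a / (1 - a) := by
          rw [div_lt_div_iff₀ (by linarith) (by linarith)]
          nlinarith
        linarith
    have e1 : ¬ (0 < a) := by linarith
    have e2 : ¬ (0 < c) := by linarith
    simp [e, e1, e2]
  · have e : th c < th a := by
      unfold th
      rw [if_pos h2, if_neg (by linarith)]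
      have h3 : c / (1 + c) < 1 := by
        rw [div_lt_one (by linarith)]; linarith
      have h4 : -1 < a / (1 - a) := by
        rw [lt_div_iff₀ (by linarith)]; linarith
      linarith
    have e0 : ¬ (c < a) := by linarith
    have e1 : ¬ (0 < a) := by linarith
    simp [e, e0, e1, h2]
  · have e : ¬ (th c < th a) := by
      unfold th
      rw [if_neg (by linarith), if_pos h1]
      have h3 : a / (1 + a) < 1 := by
        rw [div_lt_one (by linarith)]; linarith
      have h4 : -1 < c / (1 - c) := by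
        rw [lt_div_iff₀ (by linarith)]; linarith
      linarith
    have e0 : c < a := by linarith
    have e2 : ¬ (0 < c) := by linarith
    simp [e, e0, e2, h1]
  · have e : th c < th a ↔ c < a := by
      unfold th
      rw [if_pos h2, if_pos h1]
      rw [div_lt_div_iff₀ (by linarith) (by linarith)]
      constructor
      · intro h; nlinarith
      · intro h; nlinarith
    simp [e, h1, h2]

theorem pf_ILV : T_ILV := by
  intro a b c d ha hb hc hd
  unfold ilv
  rw [th_lt a c ha hc, th_lt a d ha hd, th_lt b c hb hc, th_lt b d hb hd]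
  generalize decide (c < a) = x1
  generalize decide (d < a) = x2
  generalize decide (c < b) = x3
  generalize decide (d < b) = x4
  generalize decide (0 < a) = y1
  generalize decide (0 < b) = y2
  generalize decide (0 < c) = y3
  generalize decide (0 < d) = y4
  revert x1 x2 x3 x4 y1 y2 y3 y4
  decide

theorem pf_CPT : T_CPT := by
  intro f g A hA hf hg ω hω
  set S : Set (ℝ × ℝ) := Set.Icc 0 A ×ˢ Set.Icc 0 A with hS
  have hSc : IsCompact S := isCompact_Icc.prod isCompact_Icc
  set Q : Set (ℝ × ℝ) := S ∩ ⋂ z ∈ {z : ℝ × ℝ | z ∈ S ∧ f z.1 = g z.2},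
    {q : ℝ × ℝ | ω ≤ |q.1 - z.1| ∨ ω ≤ |q.2 - z.2|} with hQ
  have hQc : IsCompact Q := by
    apply hSc.inter_right
    refine isClosed_biInter fun z _ => ?_
    have h1 : IsClosed {q : ℝ × ℝ | ω ≤ |q.1 - z.1|} :=
      isClosed_le continuous_const (continuous_fst.sub continuous_const).abs
    have h2 : IsClosed {q : ℝ × ℝ | ω ≤ |q.2 - z.2|} :=
      isClosed_le continuous_const (continuous_snd.sub continuous_const).abs
    exact h1.union h2
  have hF : ContinuousOn (fun q : ℝ × ℝ => ‖f q.1 - g q.2‖) Q := by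
    have h1 : ContinuousOn (fun q : ℝ × ℝ => f q.1) Q :=
      hf.comp continuous_fst.continuousOn fun q hq => (Set.mem_prod.mp hq.1).1
    have h2 : ContinuousOn (fun q : ℝ × ℝ => g q.2) Q :=
      hg.comp continuous_snd.continuousOn fun q hq => (Set.mem_prod.mp hq.1).2
    exact (h1.sub h2).norm
  have hout : ∀ s ∈ Set.Icc (0 : ℝ) A, ∀ t ∈ Set.Icc (0 : ℝ) A, (s, t) ∉ Q →
      ∃ s' ∈ Set.Icc 0 A, ∃ t' ∈ Set.Icc 0 A, f s' = g t' ∧ |s - s'| ≤ ω ∧ |t - t'| ≤ ω := by
    intro s hs t ht hst
    by_contra hcon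
    apply hst
    refine ⟨Set.mem_prod.mpr ⟨hs, ht⟩, ?_⟩
    rw [Set.mem_iInter₂]
    rintro z ⟨hz, hfz⟩
    by_contra hz2
    have hz3 : ¬ (ω ≤ |s - z.1| ∨ ω ≤ |t - z.2|) := hz2
    push Not at hz3
    exact hcon ⟨z.1, (Set.mem_prod.mp hz).1, z.2, (Set.mem_prod.mp hz).2, hfz, hz3.1.le, hz3.2.le⟩
  by_cases hne : Q.Nonempty
  · obtain ⟨q, hq, hmin⟩ := hQc.exists_isMinOn hne hF
    have hpos : 0 < ‖f q.1 - g q.2‖ := by
      rw [norm_pos_iff]
      intro h0
      have h1 := Set.mem_iInter₂.mp hq.2 q ⟨hq.1, sub_eq_zero.mp h0⟩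
      have h2 : ω ≤ |q.1 - q.1| ∨ ω ≤ |q.2 - q.2| := h1
      rw [sub_self, sub_self, abs_zero] at h2
      rcases h2 with h2 | h2 <;> linarith
    refine ⟨‖f q.1 - g q.2‖ / 2, by linarith, fun s hs t ht hst => hout s hs t ht fun hmem => ?_⟩
    have := hmin hmem
    have h3 : ‖f q.1 - g q.2‖ ≤ ‖f s - g t‖ := this
    linarith
  · exact ⟨1, one_pos, fun s hs t ht _ => hout s hs t ht fun hmem => hne ⟨_, hmem⟩⟩

theorem tt_eq (α s : ℕ) (hα : 0 < α) : tt α s = ∑ y ∈ range s, y / α := by
  unfold tt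
  rw [Finset.card_filter, Fintype.sum_prod_type_right]
  have h1 : ∀ y : Fin s, ∑ x : Fin s, (if (x, y).1 < (x, y).2 ∧ (x, y).1.val % α = (x, y).2.val % α
      then 1 else 0) = y.val / α := by
    intro y
    have h2 : ∑ x : Fin s, (if (x, y).1 < (x, y).2 ∧ (x, y).1.val % α = (x, y).2.val % α
        then 1 else 0) = ∑ x ∈ range s, (if x < y.val ∧ x % α = y.val % α then 1 else 0) := by
      rw [← Fin.sum_univ_eq_sum_range (fun x => if x < y.val ∧ x % α = y.val % α then 1 else 0) s]
      exact Finset.sum_congr rfl fun x _ => rfl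
    rw [h2, ← Finset.card_filter]
    have h3 : (range s).filter (fun x => x < y.val ∧ x % α = y.val % α) =
        (range y.val).filter (fun x => x ≡ y.val [MOD α]) := by
      ext x
      rw [Finset.mem_filter, Finset.mem_filter, Finset.mem_range, Finset.mem_range]
      constructor
      · rintro ⟨_, h4, h5⟩
        exact ⟨h4, h5⟩
      · rintro ⟨h4, h5⟩
        exact ⟨lt_trans h4 y.2, h4, h5⟩
    rw [h3, ← Nat.count_eq_card_filter_range, Nat.count_modEq_card _ hα]
    simp
  rw [Finset.sum_congr rfl fun y _ => h1 y]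
  exact Fin.sum_univ_eq_sum_range (fun y => y / α) s

theorem tt_mono (α s t : ℕ) (hα : 0 < α) (h : s ≤ t) : tt α s ≤ tt α t := by
  rw [tt_eq α s hα, tt_eq α t hα]
  exact Finset.sum_le_sum_of_subset (Finset.range_mono h)

theorem tt_up (α u k : ℕ) (hα : 0 < α) : tt α u + k * (u / α) ≤ tt α (u + k) := by
  induction k with
  | zero => simp
  | succ k ih =>
    have e : tt α (u + (k + 1)) = tt α (u + k) + (u + k) / α := by
      rw [tt_eq α _ hα, tt_eq α _ hα, ← add_assoc, Finset.sum_range_succ]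
    have h1 : u / α ≤ (u + k) / α := Nat.div_le_div_right (by omega)
    rw [e, add_mul, one_mul]
    omega

theorem tt_down (α t k : ℕ) (hα : 0 < α) : tt α (t + k) ≤ tt α t + k * ((t + k) / α) := by
  induction k with
  | zero => simp
  | succ k ih =>
    have e : tt α (t + (k + 1)) = tt α (t + k) + (t + k) / α := by
      rw [tt_eq α _ hα, tt_eq α _ hα, ← add_assoc, Finset.sum_range_succ]
    have h1 : (t + k) / α ≤ (t + (k + 1)) / α := Nat.div_le_div_right (by omega)
    rw [e, add_mul, one_mul]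
    have h2 : k * ((t + k) / α) ≤ k * ((t + (k + 1)) / α) := Nat.mul_le_mul_left k h1
    omega

theorem ttc_aux (α s t u : ℕ) (hα : 0 < α) (h : 2 * u ≤ s + t) (hts : t ≤ s) :
    2 * tt α u ≤ tt α s + tt α t := by
  rcases Nat.lt_or_ge t u with h1 | h1
  · obtain ⟨k, rfl⟩ : ∃ k, u = t + k := ⟨u - t, by omega⟩
    obtain ⟨l, rfl⟩ : ∃ l, s = t + k + l := ⟨s - (t + k), by omega⟩
    have h2 := tt_up α (t + k) l hα
    have h3 := tt_down α t k hα
    have h4 : k * ((t + k) / α) ≤ l * ((t + k) / α) := Nat.mul_le_mul_right _ (by omega)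
    omega
  · have h2 := tt_mono α u t hα h1
    have h3 := tt_mono α u s hα (by omega)
    omega

theorem pf_TTC : T_TTC := by
  intro α s t u hα h
  rcases Nat.le_total t s with h1 | h1
  · exact ttc_aux α s t u hα h h1
  · have := ttc_aux α t s u hα (by omega) h1
    omega

theorem pf_LB (h1 : T_STR) (h2 : T_TTC) : T_LB := by
  classical
  intro n m u B hn hu
  have hle1 : B.G₁ ≤ K n m := le_sup_left.trans B.sup.le
  have hle2 : B.G₂ ≤ K n m := le_sup_right.trans B.sup.le
  have s1 := h1 n m B.G₁ B.D₁ (by omega) hle1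
  have s2 := h1 n m B.G₂ B.D₂ (by omega) hle2
  set d1 : Fin m → ℕ := fun j => (univ.filter fun i : Fin n => B.G₁.Adj (Sum.inr j) (Sum.inl i)).card
    with hd1
  set d2 : Fin m → ℕ := fun j => (univ.filter fun i : Fin n => B.G₂.Adj (Sum.inr j) (Sum.inl i)).card
    with hd2
  have hd : ∀ j, d1 j + d2 j = n := by
    intro j
    have e : (univ.filter fun i : Fin n => B.G₁.Adj (Sum.inr j) (Sum.inl i)) ∪
        (univ.filter fun i : Fin n => B.G₂.Adj (Sum.inr j) (Sum.inl i)) = univ := by
      ext i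
      simp only [Finset.mem_union, Finset.mem_filter, Finset.mem_univ, true_and, iff_true]
      have h3 : (B.G₁ ⊔ B.G₂).Adj (Sum.inr j) (Sum.inl i) := by
        rw [B.sup]
        simp
      exact h3
    have hdis : Disjoint (univ.filter fun i : Fin n => B.G₁.Adj (Sum.inr j) (Sum.inl i))
        (univ.filter fun i : Fin n => B.G₂.Adj (Sum.inr j) (Sum.inl i)) := by
      rw [Finset.disjoint_left]
      intro i hi1 hi2
      have a1 := (Finset.mem_filter.mp hi1).2
      have a2 := (Finset.mem_filter.mp hi2).2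
      have hb : (B.G₁ ⊓ B.G₂).Adj (Sum.inr j) (Sum.inl i) := ⟨a1, a2⟩
      rw [B.disj.eq_bot] at hb
      exact hb
    show (univ.filter fun i : Fin n => B.G₁.Adj (Sum.inr j) (Sum.inl i)).card +
      (univ.filter fun i : Fin n => B.G₂.Adj (Sum.inr j) (Sum.inl i)).card = n
    rw [← Finset.card_union_of_disjoint hdis, e, Finset.card_univ, Fintype.card_fin]
  have hsum : m * (n - 4) ≤ ∑ j : Fin m, (d1 j - 2) + ∑ j : Fin m, (d2 j - 2) := by
    rw [← Finset.sum_add_distrib]
    have : ∑ _j : Fin m, (n - 4) ≤ ∑ j : Fin m, (d1 j - 2 + (d2 j - 2)) := by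
      refine Finset.sum_le_sum fun j _ => ?_
      have := hd j
      omega
    simpa using this
  have h3 := h2 (2 * n - 4) (∑ j : Fin m, (d1 j - 2)) (∑ j : Fin m, (d2 j - 2)) u (by omega)
    (by omega)
  show 2 * tt (2 * n - 4) u ≤ B.D₁.crossings + B.D₂.crossings
  exact h3.trans (Nat.add_le_add s1 s2)

end Pool.Agent.H48.BQ
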