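import Pool.Agent.H55.BQ.Targets

/-!
# MP_bacf0e_co, second part: rows LNF, LNB, GLN, GLS
-/

set_option autoImplicit false

open Finset Pool.Agent.H55.BP Pool.Agent.H55.BQ

namespace Pool.Agent.H48.BQ

variable {n : ℕ}

theorem dir_self (T : LT n) (c : T.V) : T.dir c c = none := (T.dir_none c c).mpr rfl

theorem ne_of_dir (T : LT n) {c e : T.V} {i : Fin n} (h : T.dir c e = some i) : c ≠ e := by
  rintro rfl
  rw [dir_self] at h
  exact absurd h (by simp)

theorem some_ne {i j : Fin n} (h : i ≠ j) : (some i : Option (Fin n)) ≠ some j :=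
  fun e => h (Option.some.inj e)

/-- both directions along a line -/
theorem lnf2 (T : LT n) (R L : Fin n) (hLR : L ≠ R) (c : T.V) (k : ℕ) :
    T.dir c ((fun x => T.r R (T.r L x))^[k + 1] c) = some L ∧
      T.dir ((fun x => T.r R (T.r L x))^[k + 1] c) c = some R := by
  induction k with
  | zero =>
    have h1 : T.dir c (T.r L c) = some L := T.dir_r L c
    have h2 : T.dir (T.r L c) c = some L := by
      apply T.dir_base
      rw [dir_self]
      simp
    have h3 : T.dir (T.r R (T.r L c)) c = some R := by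
      apply T.dir_base
      rw [h2]
      exact some_ne hLR
    show T.dir c (T.r R (T.r L c)) = some L ∧ T.dir (T.r R (T.r L c)) c = some R
    refine ⟨?_, h3⟩
    rw [T.dir_step c (T.r L c) R (ne_of_dir T h2) (ne_of_dir T h3)]
    exact h1
  | succ k ih =>
    rw [Function.iterate_succ_apply']
    set x := (fun x => T.r R (T.r L x))^[k + 1] c with hx
    obtain ⟨i1, i2⟩ := ih
    have h2 : T.dir (T.r L x) c = some L := by
      apply T.dir_base
      rw [i2]
      exact some_ne hLR.symm
    have h3 : T.dir (T.r R (T.r L x)) c = some R := by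
      apply T.dir_base
      rw [h2]
      exact some_ne hLR
    refine ⟨?_, h3⟩
    show T.dir c (T.r R (T.r L x)) = some L
    rw [T.dir_step c (T.r L x) R (ne_of_dir T h2) (ne_of_dir T h3),
      T.dir_step c x L (ne_of_dir T i2) (ne_of_dir T h2)]
    exact i1

theorem pf_LNF : T_LNF := by
  intro n T R L hLR c k hk
  obtain ⟨j, rfl⟩ : ∃ j, k = j + 1 := ⟨k - 1, by omega⟩
  exact (lnf2 T R L hLR c j).1

/-- a walk which changes its direction seen from `x` passes through `x` -/
theorem walk_return (T : LT n) (x y : T.V) (w : List (Fin n))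
    (h : T.dir x (w.foldr T.r y) ≠ T.dir x y) : ∃ l1 l2, w = l1 ++ l2 ∧ l2.foldr T.r y = x := by
  induction w with
  | nil => exact absurd rfl h
  | cons a w ih =>
    rw [List.foldr_cons] at h
    by_cases h1 : w.foldr T.r y = x
    · exact ⟨[a], w, rfl, h1⟩
    · by_cases h2 : T.r a (w.foldr T.r y) = x
      · exact ⟨[], a :: w, rfl, by rw [List.foldr_cons]; exact h2⟩
      · rw [T.dir_step x _ a h1 h2] at h
        obtain ⟨l1, l2, h3, h4⟩ := ih h
        exact ⟨a :: l1, l2, by rw [h3]; rfl, h4⟩

/-- a step in the right direction makes the way shorter -/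
theorem shorter (T : LT n) (m : ℕ) : ∀ (l : List (Fin n)), l.length = m → ∀ (x e : T.V) (s : Fin n),
    T.dir x e = some s → l.foldr T.r x = e → ∃ l' : List (Fin n), l'.length < m ∧
      l'.foldr T.r (T.r s x) = e := by
  induction m using Nat.strong_induction_on with
  | _ m ih =>
    intro l hl x e s hs hle
    rcases List.eq_nil_or_concat l with h | ⟨l0, j, h⟩
    · exfalso
      rw [h, List.foldr_nil] at hle
      exact ne_of_dir T hs hle
    · rw [List.concat_eq_append] at h
      rw [h, List.foldr_append, List.foldr_cons, List.foldr_nil] at hle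
      rw [h, List.length_append, List.length_singleton] at hl
      by_cases hj : j = s
      · exact ⟨l0, by omega, by rw [← hj]; exact hle⟩
      · have hne : T.dir x (l0.foldr T.r (T.r j x)) ≠ T.dir x (T.r j x) := by
          rw [hle, hs, T.dir_r]
          exact some_ne (Ne.symm hj)
        obtain ⟨l1, l2, h1, h2⟩ := walk_return T x (T.r j x) l0 hne
        have h3 : l1.foldr T.r x = e := by
          rw [← hle, h1, List.foldr_append, h2]
        have hlen : l0.length = l1.length + l2.length := by rw [h1, List.length_append]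
        obtain ⟨l', h4, h5⟩ := ih l1.length (by omega) l1 rfl x e s hs h3
        exact ⟨l', by omega, h5⟩

theorem pf_LNB : T_LNB := by
  intro n T R L hLR b c
  -- one step
  have step : ∀ x, T.dir x c ≠ some L → T.dir (T.r R (T.r L x)) c = some R := by
    intro x hx
    apply T.dir_base
    rw [T.dir_base x c L hx]
    exact some_ne hLR
  have key : ∀ m : ℕ, ∀ (l : List (Fin n)), l.length = m → ∀ x, l.foldr T.r x = c →
      ∃ M, T.dir ((fun x => T.r R (T.r L x))^[M] x) c = some R := by
    intro m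
    induction m using Nat.strong_induction_on with
    | _ m ih =>
      intro l hl x hx
      by_cases h1 : T.dir x c = some L
      · obtain ⟨l', h2, h3⟩ := shorter T m l hl x c L h1 hx
        by_cases h4 : T.dir (T.r L x) c = some R
        · obtain ⟨l'', h5, h6⟩ := shorter T l'.length l' rfl (T.r L x) c R h4 h3
          obtain ⟨M, hM⟩ := ih l''.length (by omega) l'' rfl _ h6
          exact ⟨M + 1, by rw [Function.iterate_succ_apply]; exact hM⟩
        · exact ⟨1, T.dir_base _ _ _ h4⟩
      · exact ⟨1, step x h1⟩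
  obtain ⟨l, hl⟩ := T.conn b c
  obtain ⟨M₀, hM₀⟩ := key l.length l rfl b hl
  refine ⟨M₀, fun M hM => ?_⟩
  induction M, hM using Nat.le_induction with
  | base => exact hM₀
  | succ M _ ih =>
    rw [Function.iterate_succ_apply']
    apply step
    rw [ih]
    exact some_ne hLR.symm

/-- the half step ray -/
def ray (T : LT n) (R L : Fin n) (b : T.V) : ℕ → T.V
  | 0 => b
  | i + 1 => T.r (if i % 2 = 0 then L else R) (ray T R L b i)

theorem ray_even (T : LT n) (R L : Fin n) (b : T.V) (M : ℕ) :
    ray T R L b (2 * M) = (fun x => T.r R (T.r L x))^[M] b := by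
  induction M with
  | zero => rfl
  | succ M ih =>
    rw [Function.iterate_succ_apply', ← ih]
    show T.r (if (2 * M + 1) % 2 = 0 then L else R) (T.r (if (2 * M) % 2 = 0 then L else R) _) = _
    rw [if_neg (by omega), if_pos (by omega)]
    rfl

theorem ray_dir (T : LT n) (R L : Fin n) (hLR : L ≠ R) (b : T.V) (i k : ℕ) :
    T.dir (ray T R L b i) (ray T R L b (i + k + 1)) = some (if i % 2 = 0 then L else R) ∧
      T.dir (ray T R L b (i + k + 1)) (ray T R L b i) = some (if (i + k) % 2 = 0 then L else R) := by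
  induction k with
  | zero =>
    show T.dir (ray T R L b i) (T.r _ (ray T R L b i)) = _ ∧ T.dir (T.r _ (ray T R L b i)) _ = _
    refine ⟨T.dir_r _ _, ?_⟩
    apply T.dir_base
    rw [dir_self]
    simp
  | succ k ih =>
    obtain ⟨i1, i2⟩ := ih
    have e : ray T R L b (i + (k + 1) + 1) =
        T.r (if (i + k + 1) % 2 = 0 then L else R) (ray T R L b (i + k + 1)) := rfl
    have h2 : T.dir (T.r (if (i + k + 1) % 2 = 0 then L else R) (ray T R L b (i + k + 1)))
        (ray T R L b i) = some (if (i + k + 1) % 2 = 0 then L else R) := by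
      apply T.dir_base
      rw [i2]
      apply some_ne
      by_cases h : (i + k) % 2 = 0
      · rw [if_pos h, if_neg (by omega)]
        exact hLR
      · rw [if_neg h, if_pos (by omega)]
        exact hLR.symm
    rw [e]
    refine ⟨?_, h2⟩
    rw [T.dir_step _ _ _ (ne_of_dir T i2) (ne_of_dir T h2)]
    exact i1

theorem ray_two (T : LT n) (R L : Fin n) (hLR : L ≠ R) (b : T.V) (i j : ℕ) (hij : i ≠ j) :
    T.dir (ray T R L b i) (ray T R L b j) = some L ∨ T.dir (ray T R L b i) (ray T R L b j) = some R := by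
  have hs : ∀ m : ℕ, (some (if m % 2 = 0 then L else R) : Option (Fin n)) = some L ∨
      (some (if m % 2 = 0 then L else R) : Option (Fin n)) = some R := by
    intro m
    split_ifs
    · exact Or.inl rfl
    · exact Or.inr rfl
  rcases Nat.lt_or_gt_of_ne hij with h | h
  · obtain ⟨k, rfl⟩ : ∃ k, j = i + k + 1 := ⟨j - i - 1, by omega⟩
    rw [(ray_dir T R L hLR b i k).1]
    exact hs _
  · obtain ⟨k, rfl⟩ : ∃ k, i = j + k + 1 := ⟨i - j - 1, by omega⟩
    rw [(ray_dir T R L hLR b j k).2]
    exact hs _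

theorem pf_GLN (hB : T_LNB) (_hF : T_LNF) : T_GLN := by
  intro n T R L R' L' hLR hLR' hx b b'
  obtain ⟨M₁, hM₁⟩ := hB T R L hLR b b'
  set p := ray T R' L' b' with hp
  have hone : ∀ M M' i j, M < M' → (fun x => T.r R (T.r L x))^[M] b = p i →
      (fun x => T.r R (T.r L x))^[M'] b = p j → False := by
    intro M M' i j hMM h1 h2
    obtain ⟨k, rfl⟩ : ∃ k, M' = (k + 1) + M := ⟨M' - M - 1, by omega⟩
    rw [Function.iterate_add_apply, h1] at h2
    obtain ⟨d1, d2⟩ := lnf2 T R L hLR (p i) k
    rw [h2] at d1 d2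
    have hij : i ≠ j := by
      rintro rfl
      exact ne_of_dir T d1 rfl
    have e1 := ray_two T R' L' hLR' b' i j hij
    have e2 := ray_two T R' L' hLR' b' j i hij.symm
    rw [← hp, d1] at e1
    rw [← hp, d2] at e2
    exact hx ⟨e1.imp Option.some.inj Option.some.inj, e2.imp Option.some.inj Option.some.inj⟩
  have hfin : ∀ M, M₁ ≤ M → (∀ i, (fun x => T.r R (T.r L x))^[M] b ≠ p i) →
      T.dir ((fun x => T.r R (T.r L x))^[M] b) ((fun x => T.r R' (T.r L' x))^[M] b') = some R := by
    intro M hM hoff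
    have h3 : ∀ i, T.dir ((fun x => T.r R (T.r L x))^[M] b) (p i) = some R := by
      intro i
      induction i with
      | zero => exact hM₁ M hM
      | succ i ih =>
        have e : p (i + 1) = T.r (if i % 2 = 0 then L' else R') (p i) := rfl
        rw [e, T.dir_step _ _ _ (hoff i).symm (by rw [← e]; exact (hoff (i + 1)).symm)]
        exact ih
    rw [← ray_even T R' L' b' M]
    exact h3 (2 * M)
  by_cases h : ∃ M₂ i, (fun x => T.r R (T.r L x))^[M₂] b = p i
  · obtain ⟨M₂, i, hi⟩ := h
    refine ⟨max M₁ (M₂ + 1), fun M hM => hfin M (le_trans (le_max_left _ _) hM) fun j hj => ?_⟩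
    exact hone M₂ M i j (lt_of_lt_of_le (Nat.lt_succ_self _) (le_trans (le_max_right _ _) hM)) hi hj
  · exact ⟨M₁, fun M hM => hfin M hM fun j hj => h ⟨M, j, hj⟩⟩

theorem fin_two_ne {n : ℕ} [NeZero n] (hn : 3 ≤ n) (i : Fin n) : i ≠ i - 1 - 1 := by
  intro h
  have h1 : (1 : Fin n) + 1 = 0 := by
    have : i - 1 - 1 = i - (1 + 1) := by abel
    rw [this] at h
    have h2 : i - (i - (1 + 1)) = i - i := by rw [← h]
    rw [sub_sub_cancel, sub_self] at h2
    exact h2
  have h3 := congrArg Fin.val h1
  rw [Fin.val_add] at h3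
  have h4 : ((1 : Fin n)).val = 1 := by
    show 1 % n = 1
    exact Nat.mod_eq_of_lt (by omega)
  rw [h4] at h3
  have h5 : ((0 : Fin n)).val = 0 := rfl
  rw [h5] at h3
  have h6 : (1 + 1) % n = 2 := Nat.mod_eq_of_lt (by omega)
  omega

theorem fin_one_ne {n : ℕ} [NeZero n] (hn : 3 ≤ n) (i : Fin n) : i - 1 ≠ i := by
  intro h
  have h1 : (1 : Fin n) = 0 := by
    have h2 : i - (i - 1) = i - i := by rw [h]
    rw [sub_sub_cancel, sub_self] at h2
    exact h2
  have h3 := congrArg Fin.val h1
  have h4 : ((1 : Fin n)).val = 1 := by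
    show 1 % n = 1
    exact Nat.mod_eq_of_lt (by omega)
  have h5 : ((0 : Fin n)).val = 0 := rfl
  omega

theorem pf_GLS (hG : T_GLN) : T_GLS := by
  intro n _ T ι _ Y N κ hn hS
  have hpair : ∀ q : ι × ι, ∃ M₀, q.1 ≠ q.2 → Y.b q.1 = Y.b q.2 → ∀ M, M₀ ≤ M →
      T.dir (Y.c T N q.1 (κ q.1 + M * N)) (Y.c T N q.2 (κ q.2 + M * N)) = some (Y.wt q.1) := by
    rintro ⟨e, f⟩
    by_cases hef : e ≠ f ∧ Y.b e = Y.b f
    · have hwt : Y.wt e ≠ Y.wt f := Y.dist e f hef.1 hef.2
      obtain ⟨M₀, hM₀⟩ := hG T (Y.wt e) (lf n (Y.wt e)) (Y.wt f) (lf n (Y.wt f))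
        (fin_one_ne hn _) (fin_one_ne hn _) (by
          rintro ⟨h1, h2⟩
          have h2' : Y.wt e = lf n (Y.wt f) := h2.resolve_right hwt
          rcases h1 with h1 | h1
          · apply hwt
            have h3 : Y.wt e - 1 = Y.wt f - 1 := h1
            exact sub_left_inj.mp h3
          · have h3 : Y.wt e - 1 = Y.wt f := h1
            have h4 : Y.wt e = Y.wt f - 1 := h2'
            rw [← h3] at h4
            exact fin_two_ne hn _ h4)
        (Y.c T N e (κ e)) (Y.c T N f (κ f))
      refine ⟨M₀, fun _ _ M hM => ?_⟩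
      show T.dir (Y.c T N e (κ e + M * N)) (Y.c T N f (κ f + M * N)) = some (Y.wt e)
      rw [(hS e).cells M, (hS f).cells M]
      exact hM₀ M hM
    · exact ⟨0, fun h1 h2 => absurd ⟨h1, h2⟩ hef⟩
  choose g hg using hpair
  obtain ⟨M₀, hM₀⟩ := (Set.finite_range g).bddAbove
  refine ⟨M₀, fun M hM e f hef hb => hg (e, f) hef hb M ?_⟩
  exact le_trans (hM₀ ⟨(e, f), rfl⟩) hM

end Pool.Agent.H48.BQ
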